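import Pool.Agent.L7h3.BK.Stm

/-!
# Project BK: the bijection of the cones
-/

set_option autoImplicit false

namespace Pool.Agent.L7h3.BK

open Pool.Agent.L7h1.QB (cone)

theorem t_CON : S_CON := by
  intro κ _ m a d c hc
  unfold cone
  congr 1
  · refine Nat.card_congr ⟨fun p => ⟨(c * p.1.1, p.1.2.1, p.1.2.2 / c), ?_, ?_⟩,
      fun p => ⟨(p.1.1 / c, p.1.2.1, c * p.1.2.2), ?_, ?_⟩, fun p => ?_, fun p => ?_⟩
    · intro h
      apply p.2.1
      have h1 := (Prod.ext_iff.1 h).1
      have h2 := (Prod.ext_iff.1 h).2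
      refine Prod.ext h1 ?_
      have h3 : p.1.2.2 / c = 0 := h2
      rcases div_eq_zero_iff.1 h3 with h4 | h4
      · exact h4
      · exact absurd h4 hc
    · show ∑ j, c * a j * p.1.2.1 j ^ 2 =
        ((c * p.1.1) ^ 3 + d * c ^ 2 * (c * p.1.1)) * (p.1.2.2 / c) ^ 2
      have h1 := p.2.2
      have h2 : ∑ j, c * a j * p.1.2.1 j ^ 2 = c * ∑ j, a j * p.1.2.1 j ^ 2 := by
        rw [Finset.mul_sum]
        exact Finset.sum_congr rfl fun j _ => by ring
      rw [h2, h1]
      field_simp
    · intro h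
      apply p.2.1
      have h1 := (Prod.ext_iff.1 h).1
      have h2 := (Prod.ext_iff.1 h).2
      refine Prod.ext h1 ?_
      have h3 : c * p.1.2.2 = 0 := h2
      exact (mul_eq_zero.1 h3).resolve_left hc
    · show ∑ j, a j * p.1.2.1 j ^ 2 = ((p.1.1 / c) ^ 3 + d * (p.1.1 / c)) * (c * p.1.2.2) ^ 2
      have h1 := p.2.2
      have h2 : ∑ j, c * a j * p.1.2.1 j ^ 2 = c * ∑ j, a j * p.1.2.1 j ^ 2 := by
        rw [Finset.mul_sum]
        exact Finset.sum_congr rfl fun j _ => by ring
      rw [h2] at h1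
      apply mul_left_cancel₀ hc
      rw [h1]
      field_simp
    · apply Subtype.ext
      refine Prod.ext ?_ (Prod.ext rfl ?_)
      · show c * p.1.1 / c = p.1.1
        field_simp
      · show c * (p.1.2.2 / c) = p.1.2.2
        field_simp
    · apply Subtype.ext
      refine Prod.ext ?_ (Prod.ext rfl ?_)
      · show c * (p.1.1 / c) = p.1.1
        field_simp
      · show c * p.1.2.2 / c = p.1.2.2
        field_simp
  · refine Nat.card_congr (Equiv.subtypeEquivRight fun p => and_congr_right fun _ => ?_)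
    have h2 : ∑ j, c * a j * p.1 j ^ 2 = c * ∑ j, a j * p.1 j ^ 2 := by
      rw [Finset.mul_sum]
      exact Finset.sum_congr rfl fun j _ => by ring
    rw [h2]
    constructor
    · intro h
      rw [h, mul_zero]
    · intro h
      exact (mul_eq_zero.1 h).resolve_left hc

end Pool.Agent.L7h3.BK
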