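import Pool.Agent.L7h3.BK.Stm
import Pool.Agent.L7h53.EQ.Gk

/-!
# Project BK: Kummer theory for intermediate fields
-/

set_option autoImplicit false
set_option linter.unusedSectionVars false

open NumberField IsDedekindDomain

namespace Pool.Agent.L7h3.BK

open Pool.Agent.L7h53.EQ (gal kum act eq_of_gen)

section sep

variable {K M : Type} [Field K] [NumberField K] [Field M] [NumberField M] [Algebra K M]

/-- separation of an automorphism from a subgroup by a fourth root -/
theorem sep {j : K} (hj : j ^ 2 = -1) {T : Finset M} {Δ : Submonoid K}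
    (hT : ∀ t ∈ T, t ≠ 0 ∧ ∃ x ∈ Δ, t ^ 4 = algebraMap K M x)
    (hadj : IntermediateField.adjoin K (T : Set M) = ⊤) (N : Subgroup (M ≃ₐ[K] M))
    {g : M ≃ₐ[K] M} (hg : g ∉ N) : ∃ x ∈ Δ, ∃ y : M, y ≠ 0 ∧ y ^ 4 = algebraMap K M x ∧
      (∀ n ∈ N, n y = y) ∧ ∃ u : K, u ≠ 1 ∧ g y = algebraMap K M u * y := by
  have hcomm := (gal K M j hj T (fun t ht => by
    obtain ⟨-, x, -, hx⟩ := hT t ht
    exact ⟨x, hx⟩) hadj).2
  let iG : CommGroup (M ≃ₐ[K] M) := { (inferInstance : Group (M ≃ₐ[K] M)) with
    mul_comm := hcomm }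
  obtain ⟨σ⟩ : Nonempty (K →+* ℂ) := inferInstance
  have hfin : Finite (M ≃ₐ[K] M) := inferInstance
  have hq : ((g : M ≃ₐ[K] M) : (M ≃ₐ[K] M) ⧸ N) ≠ 1 := by
    rw [Ne, QuotientGroup.eq_one_iff]
    exact hg
  have hfq : Finite ((M ≃ₐ[K] M) ⧸ N) := inferInstance
  obtain ⟨φ, hφ⟩ := CommGroup.exists_apply_ne_one_of_hasEnoughRootsOfUnity ((M ≃ₐ[K] M) ⧸ N) ℂ hq
  let ψ : (M ≃ₐ[K] M) →* ℂ := (Units.coeHom ℂ).comp (φ.comp (QuotientGroup.mk' N))
  obtain ⟨x, hx, y, hy0, hy, h⟩ := kum K M σ j hj T Δ hT hadj ψ
  have hψ : ∀ s, ψ s = (φ ((s : M ≃ₐ[K] M) : (M ≃ₐ[K] M) ⧸ N) : ℂ) := fun s => rfl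
  refine ⟨x, hx, y, hy0, hy, fun n hn => ?_, ?_⟩
  · obtain ⟨u, -, h2, h3⟩ := h n
    have h4 : ψ n = 1 := by
      rw [hψ, (QuotientGroup.eq_one_iff n).2 hn, map_one, Units.val_one]
    have h5 : u = 1 := σ.injective (by rw [← h3, h4, map_one])
    rw [h2, h5, map_one, one_mul]
  · obtain ⟨u, -, h2, h3⟩ := h g
    refine ⟨u, ?_, h2⟩
    rintro rfl
    apply hφ
    rw [map_one, hψ] at h3
    exact Units.ext h3

end sep

/-- **BK-INT** -/
theorem t_INT : S_INT := by
  intro K F M _ _ _ _ _ _ _ _ _ _ j hj T Δ hT hadj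
  classical
  have hgal := gal K M j hj T (fun t ht => by
    obtain ⟨-, x, -, hx⟩ := hT t ht
    exact ⟨x, hx⟩) hadj
  have hG : IsGalois K M := hgal.1
  -- the image of `F`
  let f : F →ₐ[K] M := IsScalarTower.toAlgHom K F M
  have hf : ∀ x : F, f x = algebraMap F M x := fun x => rfl
  let E : IntermediateField K M := f.fieldRange
  have hE : ∀ y : M, y ∈ E ↔ ∃ x : F, algebraMap F M x = y := fun y => Iff.rfl
  have hfinG : Finite (M ≃ₐ[K] M) := inferInstance
  refine ⟨?_, ?_⟩
  · let N : Subgroup (M ≃ₐ[K] M) := E.fixingSubgroup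
    have key : ∀ g : M ≃ₐ[K] M, g ∉ N → ∃ y : F, y ≠ 0 ∧ (∃ x ∈ Δ, y ^ 4 = algebraMap K F x) ∧
        g (algebraMap F M y) ≠ algebraMap F M y := by
      intro g hg
      obtain ⟨x, hx, y, hy0, hy, hn, u, hu1, hu⟩ := sep hj hT hadj N hg
      have hyE : y ∈ E := by
        have h1 : y ∈ IntermediateField.fixedField E.fixingSubgroup := by
          intro n
          exact hn n.1 n.2
        rwa [IsGalois.fixedField_fixingSubgroup] at h1
      obtain ⟨y', rfl⟩ := (hE y).1 hyE
      refine ⟨y', ?_, ⟨x, hx, ?_⟩, ?_⟩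
      · rintro rfl
        exact hy0 (map_zero _)
      · apply (algebraMap F M).injective
        rw [map_pow, hy, ← IsScalarTower.algebraMap_apply]
      · intro h
        rw [hu] at h
        have h2 : algebraMap K M u = 1 := by
          apply mul_right_cancel₀ hy0
          rw [h, one_mul]
        exact hu1 ((algebraMap K M).injective (by rw [h2, map_one]))
    choose! y hy0 hyx hyg using key
    let _ : Fintype (M ≃ₐ[K] M) := Fintype.ofFinite _
    let T' : Finset F := (Finset.univ.filter (fun g => g ∉ N)).image y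
    have hT' : ∀ t ∈ T', ∃ g, g ∉ N ∧ y g = t := by
      intro t ht
      obtain ⟨g, hg, rfl⟩ := Finset.mem_image.1 ht
      exact ⟨g, (Finset.mem_filter.1 hg).2, rfl⟩
    refine ⟨T', ?_, ?_⟩
    · intro t ht
      obtain ⟨g, hg, rfl⟩ := hT' t ht
      exact ⟨hy0 g hg, hyx g hg⟩
    · let A : IntermediateField K F := IntermediateField.adjoin K (T' : Set F)
      let B : IntermediateField K M := A.map f
      have h1 : B.fixingSubgroup ≤ N := by
        intro g hg
        by_contra hgN
        apply hyg g hgN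
        have h2 : algebraMap F M (y g) ∈ B := by
          refine ⟨y g, ?_, rfl⟩
          refine IntermediateField.subset_adjoin K _ ?_
          exact Finset.mem_coe.2 (Finset.mem_image.2 ⟨g, Finset.mem_filter.2 ⟨Finset.mem_univ _, hgN⟩, rfl⟩)
        exact hg ⟨_, h2⟩
      have h2 : E ≤ B := by
        have h3 : IntermediateField.fixedField N ≤ IntermediateField.fixedField B.fixingSubgroup := by
          intro z hz n
          exact hz ⟨n.1, h1 n.2⟩
        rwa [IsGalois.fixedField_fixingSubgroup, IsGalois.fixedField_fixingSubgroup] at h3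
      rw [eq_top_iff]
      intro z _
      obtain ⟨w, hw, hwz⟩ := h2 ((hE (algebraMap F M z)).2 ⟨z, rfl⟩)
      have h3 : w = z := (algebraMap F M).injective hwz
      rw [← h3]
      exact hw
  · intro c γ hc hγ
    have hγ0 : γ ≠ 0 := by
      rintro rfl
      rw [zero_pow two_ne_zero] at hγ
      exact hc ((map_eq_zero _).1 hγ.symm)
    by_cases hγF : ∃ x : F, algebraMap F M x = γ
    · obtain ⟨x, rfl⟩ := hγF
      have hx0 : x ≠ 0 := by
        rintro rfl
        exact hγ0 (map_zero _)
      have h1 : x ^ 2 = c := (algebraMap F M).injective (by rw [map_pow, hγ])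
      refine ⟨1, Δ.one_mem, x⁻¹, inv_ne_zero hx0, ?_⟩
      rw [map_one, ← h1]
      field_simp
    · -- the subgroups
      let E' : IntermediateField K M := E ⊔ IntermediateField.adjoin K {γ}
      let N' : Subgroup (M ≃ₐ[K] M) := E'.fixingSubgroup
      let N : Subgroup (M ≃ₐ[K] M) := E.fixingSubgroup
      have hN'γ : ∀ n ∈ N', n γ = γ := by
        intro n hn
        exact hn ⟨γ, (le_sup_right : IntermediateField.adjoin K {γ} ≤ E')
          (IntermediateField.mem_adjoin_simple_self K γ)⟩
      have hN'N : N' ≤ N := IntermediateField.fixingSubgroup_antitone le_sup_left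
      have hmem : ∀ n ∈ N, n γ = γ → n ∈ N' := by
        intro n hn h
        have h1 : E' ≤ IntermediateField.fixedField (Subgroup.zpowers n) := by
          refine sup_le ?_ ?_
          · intro z hz m
            obtain ⟨k, hk⟩ := Subgroup.mem_zpowers_iff.1 m.2
            have h2 : m.1 ∈ N := by rw [← hk]; exact N.zpow_mem hn k
            exact h2 ⟨z, hz⟩
          · rw [IntermediateField.adjoin_le_iff, Set.singleton_subset_iff]
            intro m
            obtain ⟨k, hk⟩ := Subgroup.mem_zpowers_iff.1 m.2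
            have h2 : n ∈ MulAction.stabilizer (M ≃ₐ[K] M) γ := h
            have h3 : n ^ k ∈ MulAction.stabilizer (M ≃ₐ[K] M) γ := Subgroup.zpow_mem _ h2 k
            rw [hk] at h3
            exact h3
        intro z
        exact h1 z.2 ⟨n, Subgroup.mem_zpowers n⟩
      have hFfix : ∀ n ∈ N, ∀ x : F, n (algebraMap F M x) = algebraMap F M x := by
        intro n hn x
        exact hn ⟨_, (hE _).2 ⟨x, rfl⟩⟩
      have hsign : ∀ n ∈ N, n γ = γ ∨ n γ = -γ := by
        intro n hn
        have h1 : (n γ) ^ 2 = γ ^ 2 := by rw [← map_pow, hγ, hFfix n hn]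
        exact sq_eq_sq_iff_eq_or_eq_neg.1 h1
      obtain ⟨g, hgN, hgγ⟩ : ∃ g ∈ N, g γ = -γ := by
        by_contra hcon
        push Not at hcon
        apply hγF
        have h1 : γ ∈ IntermediateField.fixedField E.fixingSubgroup := by
          intro n
          exact (hsign n.1 n.2).resolve_right (hcon n.1 n.2)
        rw [IsGalois.fixedField_fixingSubgroup] at h1
        exact (hE γ).1 h1
      have hgN' : g ∉ N' := by
        intro h
        have h1 := hN'γ g h
        rw [hgγ] at h1
        have h2 : (2 : M) * γ = 0 := by linear_combination -h1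
        rcases mul_eq_zero.1 h2 with h3 | h3
        · exact two_ne_zero h3
        · exact hγ0 h3
      obtain ⟨x, hx, y, hy0, hy, hn, u, hu1, hu⟩ := sep hj hT hadj N' hgN'
      have hgg : g * g ∈ N' := by
        refine hmem _ (N.mul_mem hgN hgN) ?_
        rw [AlgEquiv.mul_apply, hgγ, map_neg, hgγ, neg_neg]
      have hu2 : u = -1 := by
        have h1 := hn _ hgg
        rw [AlgEquiv.mul_apply, hu, map_mul, AlgEquiv.commutes, hu, ← mul_assoc, ← map_mul] at h1
        have h2 : algebraMap K M (u * u) = 1 := by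
          apply mul_right_cancel₀ hy0
          rw [h1, one_mul]
        have h3 : u * u = 1 := (algebraMap K M).injective (by rw [h2, map_one])
        rcases mul_self_eq_one_iff.1 h3 with h4 | h4
        · exact absurd h4 hu1
        · exact h4
      have hyγ : ∀ n ∈ N, n (y * γ⁻¹) = y * γ⁻¹ := by
        intro n hnN
        by_cases h : n γ = γ
        · rw [map_mul, map_inv₀, h, hn n (hmem n hnN h)]
        · have h1 := (hsign n hnN).resolve_left h
          have h2 : g⁻¹ * n ∈ N' := by
            refine hmem _ (N.mul_mem (N.inv_mem hgN) hnN) ?_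
            rw [AlgEquiv.mul_apply, h1, map_neg]
            have h3 : g⁻¹ γ = -γ := by
              apply g.injective
              rw [map_neg, hgγ, neg_neg]
              exact AlgEquiv.apply_symm_apply g γ
            rw [h3, neg_neg]
          have h3 : n y = g y := by
            have h4 := hn _ h2
            rw [AlgEquiv.mul_apply] at h4
            have h5 := congrArg g h4
            rw [← h5]
            exact (AlgEquiv.apply_symm_apply g (n y)).symm
          rw [map_mul, map_inv₀, h1, h3, hu, hu2, map_neg, map_one]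
          rw [inv_neg]
          ring
      have hb : y * γ⁻¹ ∈ E := by
        have h1 : y * γ⁻¹ ∈ IntermediateField.fixedField E.fixingSubgroup := by
          intro n
          exact hyγ n.1 n.2
        rwa [IsGalois.fixedField_fixingSubgroup] at h1
      obtain ⟨b, hb⟩ := (hE _).1 hb
      refine ⟨x, hx, b, ?_, ?_⟩
      · rintro rfl
        rw [map_zero] at hb
        exact mul_ne_zero hy0 (inv_ne_zero hγ0) hb.symm
      · apply (algebraMap F M).injective
        rw [← IsScalarTower.algebraMap_apply, ← hy, map_mul, map_pow, map_pow, hb, ← hγ]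
        field_simp

end Pool.Agent.L7h3.BK
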