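import Pool.Agent.L7h3.BK.Int

/-!
# Project BK: all the intermediate fields and all the twists
-/

set_option autoImplicit false
set_option linter.unusedSectionVars false

open NumberField IsDedekindDomain

namespace Pool.Agent.L7h3.BK

open scoped Classical
open Pool.Agent.Y699
open Pool.Agent.L7h3.QD (Parts Co2 CoL co2_scale)
open Pool.Agent.L7h3.QX
open H385 (ZI im1 nrm)
open Pool.Agent.Y715.Z (em0 em0_ne)

section fields

variable {K : Type} [Field K] [NumberField K] {𝒢 : Set K}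

/-- the multipliers -/
def mult (𝒢 : Set K) : Submonoid K where
  carrier := {x | ∀ δ ∈ 𝒢, δ * x ∈ 𝒢}
  one_mem' := fun δ hδ => by rw [mul_one]; exact hδ
  mul_mem' := by
    intro x y hx hy δ hδ
    rw [← mul_assoc]
    exact hy _ (hx δ hδ)

/-- all the fields between `K` and `M`, and all the twists -/
theorem all_fields {j : K} (hj : j ^ 2 = -1) (h0 : ∀ δ ∈ 𝒢, δ ≠ 0)
    (hbase : ∀ (F : Type) [Field F] [NumberField F] (f : K ≃+* F), ∀ δ ∈ 𝒢, Co2 (f δ))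
    {M : Type} [Field M] [NumberField M] [Algebra K M] (T : Finset M)
    (hT : ∀ t ∈ T, GA 𝒢 t ∨ GB 𝒢 t) (htop : IntermediateField.adjoin K (T : Set M) = ⊤)
    {F : Type} [Field F] [NumberField F] [Algebra K F] [Algebra F M] [IsScalarTower K F M]
    {c : F} (hc : c ≠ 0) {γ : M} (hγ : γ ^ 2 = algebraMap F M c) {δ : K} (hδ : δ ∈ 𝒢) :
    Co2 (algebraMap K F δ * c ^ 2) := by
  have hTM : ∀ t ∈ T, t ≠ 0 ∧ ∃ x ∈ mult 𝒢, t ^ 4 = algebraMap K M x := by
    intro t ht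
    have hx : ∃ x ∈ mult 𝒢, t ^ 4 = algebraMap K M x := by
      rcases hT t ht with ⟨d, h1, h2⟩ | ⟨ρ, h1, h2⟩
      · exact ⟨d ^ 2, h2, by rw [map_pow, ← h1]; ring⟩
      · exact ⟨ρ, h2, h1⟩
    refine ⟨?_, hx⟩
    rintro rfl
    obtain ⟨x, h1, h2⟩ := hx
    rw [zero_pow (by norm_num)] at h2
    have h3 : x = 0 := (map_eq_zero _).1 h2.symm
    have h4 := h1 δ hδ
    rw [h3, mul_zero] at h4
    exact h0 _ h4 rfl
  obtain ⟨⟨T', h1, h2⟩, h3⟩ := t_INT K F M j hj T (mult 𝒢) hTM htop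
  have hF := tower_all h0 hbase T' (fun t ht => by
    obtain ⟨-, x, hx, h4⟩ := h1 t ht
    exact Or.inr ⟨x, h4, hx⟩) h2
  obtain ⟨x, hx, b, hb, h4⟩ := h3 c γ hc hγ
  have h5 := hF _ (hx δ hδ)
  have hne : algebraMap K F (δ * x) ≠ 0 := by
    rw [Ne, map_eq_zero]
    exact h0 _ (hx δ hδ)
  have h6 := co2_scale hne (inv_ne_zero hb) h5
  have h7 : algebraMap K F (δ * x) * b⁻¹ ^ 4 = algebraMap K F δ * c ^ 2 := by
    rw [map_mul, h4]
    field_simp
  rwa [h7] at h6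

end fields

/-- **all the intermediate fields of the Kummer extensions of project QX** -/
theorem crit_b (P : Parts) (PX : PartsX) (hC : S_CRX) {D : ZI} {R : Finset ZI} (hR : QuartX D R)
    {K : Type} [Field K] [NumberField K]
    (e : ZI ≃+* 𝓞 K) {M : Type} [Field M] [NumberField M] [Algebra K M] (T : Finset M)
    (hT : ∀ t ∈ T, (∃ δ : ZI, QuadX D R δ ∧ t ^ 2 = algebraMap K M ((e δ : 𝓞 K) : K)) ∨
      ∃ ρ ∈ R, t ^ 4 = algebraMap K M ((e ρ : 𝓞 K) : K))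
    (htop : IntermediateField.adjoin K (T : Set M) = ⊤)
    {F : Type} [Field F] [NumberField F] [Algebra K F] [Algebra F M] [IsScalarTower K F M]
    {c : F} (hc : c ≠ 0) {γ : M} (hγ : γ ^ 2 = algebraMap F M c) :
    Co2 (algebraMap K F ((e D : 𝓞 K) : K) * c ^ 2) := by
  set 𝒢 : Set K := {x | ∃ J ⊆ R, ∃ t : ZI, t ≠ 0 ∧ (∀ π : ZI, Prime π → π ∣ t → ∀ J ⊆ R,
    NrX (D * ∏ ρ ∈ J, ρ) π) ∧ x = em0 e ((D * ∏ ρ ∈ J, ρ) * t ^ 2)} with h𝒢
  have hne : ∀ J ⊆ R, D * ∏ ρ ∈ J, ρ ≠ 0 := fun J hJ => (hR.good J hJ).1.1.ne_zero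
  have h0 : ∀ δ ∈ 𝒢, δ ≠ 0 := by
    rintro δ ⟨J, hJ, t, ht, -, rfl⟩
    exact em0_ne e (mul_ne_zero (hne J hJ) (pow_ne_zero 2 ht))
  have hρ0 : ∀ ρ ∈ R, ρ ≠ 0 := by
    intro ρ hρ h
    have h1 := hne {ρ} (Finset.singleton_subset_iff.2 hρ)
    rw [Finset.prod_singleton, h, mul_zero] at h1
    exact h1 rfl
  have hbase : ∀ (F : Type) [Field F] [NumberField F] (f : K ≃+* F), ∀ δ ∈ 𝒢, Co2 (f δ) := by
    rintro F _ _ f δ ⟨J, hJ, t, ht, hc, rfl⟩
    let eF : ZI ≃+* 𝓞 F := e.trans (RingOfIntegers.mapRingEquiv f)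
    have h1 : f (em0 e ((D * ∏ ρ ∈ J, ρ) * t ^ 2)) = em0 eF ((D * ∏ ρ ∈ J, ρ) * t ^ 2) := rfl
    rw [h1]
    exact base_good P PX hC (hR.good J hJ) ht (fun π hπ hd => hc π hπ hd J hJ) eF
  have hj : (em0 e im1) ^ 2 = -1 := by
    have h1 : (im1 : ZI) ^ 2 = -1 := by decide
    rw [← map_pow, h1, map_neg, map_one]
  refine all_fields hj h0 hbase T ?_ htop hc hγ ?_
  · intro t ht
    rcases hT t ht with ⟨δ, hδ, h2⟩ | ⟨ρ, hρ, h4⟩
    · left
      refine ⟨em0 e δ, h2, ?_⟩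
      rintro _ ⟨J, hJ, t, ht, hc, rfl⟩
      refine ⟨J, hJ, t * δ, mul_ne_zero ht hδ.1, ?_, ?_⟩
      · intro π hπ hd
        rcases hπ.dvd_or_dvd hd with h | h
        · exact hc π hπ h
        · exact hδ.2 π hπ h
      · rw [← map_pow, ← map_mul]
        congr 1
        ring
    · right
      refine ⟨em0 e ρ, h4, ?_⟩
      rintro _ ⟨J, hJ, t, ht, hc, rfl⟩
      by_cases hρJ : ρ ∈ J
      · refine ⟨J.erase ρ, (Finset.erase_subset _ _).trans hJ, t * ρ, mul_ne_zero ht (hρ0 ρ hρ), ?_, ?_⟩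
        · intro π hπ hd
          rcases hπ.dvd_or_dvd hd with h | h
          · exact hc π hπ h
          · exact hR.non ρ hρ π hπ h
        · rw [← map_mul]
          congr 1
          rw [← Finset.mul_prod_erase J (fun σ => σ) hρJ]
          ring
      · refine ⟨insert ρ J, Finset.insert_subset hρ hJ, t, ht, hc, ?_⟩
        rw [← map_mul]
        congr 1
        rw [Finset.prod_insert hρJ]
        ring
  · refine ⟨∅, Finset.empty_subset _, 1, one_ne_zero, ?_, ?_⟩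
    · intro π hπ hd
      exact absurd (isUnit_of_dvd_one hd) hπ.not_isUnit
    · rw [Finset.prod_empty, mul_one, one_pow, mul_one]
      rfl

end Pool.Agent.L7h3.BK
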