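import Pool.Agent.L7h3.QX.Crt
import Pool.Agent.L7h1.QB.Main

/-!
# Project BK (helper3): Beilinson's conjecture for quadric bundles over Kummer extensions of `ℚ(i)`

Upgrade of `MP_6dc9d1_nt.PositiveProportionAllDims` with the results of project QX. Three independent parts.
-/

set_option autoImplicit false
set_option linter.unusedVariables false

open NumberField IsDedekindDomain

namespace Pool.Agent.L7h3.BK

open scoped Classical
open Pool.Agent.L7h3.QD (CoL)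
open Pool.Agent.H921R2.TatePole (nm two_le_nm)
open Pool.Agent.L7h1.QB (cone)

/-- BK-INT: Kummer theory for intermediate fields. `M/K` is generated by fourth roots `t` of elements of the
submonoid `Δ` of `K`, `K ≤ F ≤ M`. Then `F` is generated over `K` by such elements, and for every `c ∈ F^×` which is a
square in `M` there are `x ∈ Δ`, `b ∈ F^×` with `x = b⁴ c²`. Proof: let `N ≤ G = Gal(M/K)` be a subgroup and
`g ∉ N`; `G` is abelian (`EQ.S_GAL`), so some character `ψ` of `G` is trivial on `N` with `ψ g ≠ 1`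
(`CommGroup.exists_apply_ne_one_of_hasEnoughRootsOfUnity` for `G/N`), and by `EQ.S_KUM` (proved:
`Pool.Agent.L7h53.EQ.s_KUM`) it is given by `y` with `y⁴ ∈ Δ`: `y` is fixed by `N` and `g y ≠ y`. First part: take
`N = Gal(M/F)` and the `y` of all `g ∉ N`. Second part: if the square root `γ` of `c` is in `F`, then `x = 1`;
otherwise take `N = Gal(M/F(γ))` and `g ∈ Gal(M/F)`, `g γ = -γ`; then `g² ∈ N`, so `g y = -y`, and `y/γ ∈ F`. -/
def S_INT : Prop := ∀ (K F M : Type) [Field K] [NumberField K] [Field F] [NumberField F] [Field M]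
  [NumberField M] [Algebra K F] [Algebra F M] [Algebra K M] [IsScalarTower K F M] (j : K), j ^ 2 = -1 →
  ∀ (T : Finset M) (Δ : Submonoid K), (∀ t ∈ T, t ≠ 0 ∧ ∃ x ∈ Δ, t ^ 4 = algebraMap K M x) →
  IntermediateField.adjoin K (T : Set M) = ⊤ →
  (∃ T' : Finset F, (∀ t ∈ T', t ≠ 0 ∧ ∃ x ∈ Δ, t ^ 4 = algebraMap K F x) ∧
    IntermediateField.adjoin K (T' : Set F) = ⊤) ∧
  ∀ (c : F) (γ : M), c ≠ 0 → γ ^ 2 = algebraMap F M c →
    ∃ x ∈ Δ, ∃ b : F, b ≠ 0 ∧ algebraMap K F x = b ^ 4 * c ^ 2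

/-- BK-CON: the bijection `(t, x, z) ↦ (c t, x, z / c)`. -/
def S_CON : Prop := ∀ (κ : Type) [Field κ] (m : ℕ) (a : Fin (2 * m + 1) → κ) (d c : κ), c ≠ 0 →
  cone κ m a (fun t => t ^ 3 + d * t) =
    cone κ m (fun j => c * a j) (fun t => t ^ 3 + d * c ^ 2 * t)

/-- BK-EUL: as `bundle` in `L7h1/QB/Main.lean`, but from the Euler product of `CoL` (without the places above two) and
without the hypothesis on the local factors (`hbd_gen` in `L7h3/QD`). Put `L(s) = Lf(s - m) ∏_{v ∣ B, v ∤ 2} loc(v)`. -/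
def S_EUL : Prop := ∀ (K : Type) [Field K] [NumberField K] (d : 𝓞 K), d ≠ 0 → CoL (d : K) →
  ∀ (m : ℕ) (a : Fin (2 * m + 1) → 𝓞 K) (c : 𝓞 K), (-1) ^ m * ∏ i, a i = c ^ 2 → ∀ B : 𝓞 K, B ≠ 0 →
  (∀ v : HeightOneSpectrum (𝓞 K), B ∉ v.asIdeal → (2 : 𝓞 K) ∉ v.asIdeal) →
  (∀ v : HeightOneSpectrum (𝓞 K), B ∉ v.asIdeal → d ∉ v.asIdeal) →
  (∀ (v : HeightOneSpectrum (𝓞 K)) (i), B ∉ v.asIdeal → a i ∉ v.asIdeal) →
  ∃ L : ℂ → ℂ, Differentiable ℂ L ∧ L (m + 1) ≠ 0 ∧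
    ∃ α : HeightOneSpectrum (𝓞 K) → ℂ,
      (∀ v, B ∉ v.asIdeal → ‖α v‖ ^ 2 = (nm v : ℝ) ^ (2 * m + 1) ∧
        (cone (𝓞 K ⧸ v.asIdeal) m (fun i => Ideal.Quotient.mk v.asIdeal (a i))
          (fun t => t ^ 3 + Ideal.Quotient.mk v.asIdeal d * t) : ℂ) =
          ((nm v : ℂ) - 1) * ((1 + nm v) * ∑ l ∈ Finset.range (2 * m + 1), (nm v : ℂ) ^ l -
            (α v + (starRingEnd ℂ) (α v)))) ∧
      ∀ s : ℂ, m + 3 / 2 < s.re →
        HasProd (fun v : {v : HeightOneSpectrum (𝓞 K) // B ∉ v.asIdeal} =>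
          ((1 - α v.1 * (nm v.1 : ℂ) ^ (-s)) *
            (1 - (starRingEnd ℂ) (α v.1) * (nm v.1 : ℂ) ^ (-s)))⁻¹) (L s)

end Pool.Agent.L7h3.BK
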